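import Pool.Agent.Lib.MP_fadef1_lc.Main

/-!
# Rectilinear connectivity of fixed points of two-dimensional morphisms is undecidable

The halting problem is reduced to it. Each block of the fixed point is a logical gate for the
lanes of the next level, the levels run a Turing machine; the zeros of the fixed point form chains
following the lanes, which are all finite if the machine halts, and one of which is infinite and
cuts the quarter plane if it does not halt.
-/

namespace Pool.Agent.Results.MP_fadef1_lc.Undecidable

open Pool.Agent.MP_fadef1_lc

/-- There is no algorithm (partial computable function) which halts on every legal input and tells
whether the fixed point `h^ω(a)` is rectilinearly connected. -/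
theorem result :
    ¬ ∃ f : Inp →. Bool, Partrec f ∧
      ∀ x : Inp, Valid x → ∃ b ∈ f x, (b = true ↔ RectConn (hOmega x)) :=
  undecidable

end Pool.Agent.Results.MP_fadef1_lc.Undecidable
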